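import Pool.Agent.H36.SC.Cut
import Pool.Agent.H68.SC.Jl

/-!
# The background `v0 = 1 - j_0(s)/j_0(ρ)` and the cubic cut-off form a `Bg`
-/

set_option autoImplicit false
set_option linter.deprecated false
set_option linter.unusedSimpArgs false
set_option linter.unusedVariables false
open Filter Topology Set

namespace Pool.Agent.H36.SC

open Pool.Agent.H68.SC (jl djl jl_deriv jl_ode jl_rec djl_succ)

/-- `v0 = 1 - j_0(s)/j_0(ρ)` -/
noncomputable def bv0 (ρ s : ℝ) : ℝ := 1 - jl 0 s / jl 0 ρ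
/-- `v0'` -/
noncomputable def bp (ρ s : ℝ) : ℝ := jl 1 s / jl 0 ρ
/-- `v0''` -/
noncomputable def bq (ρ s : ℝ) : ℝ := djl 1 s / jl 0 ρ
/-- `v0'''` -/
noncomputable def bq3 (ρ s : ℝ) : ℝ := ((2 / s ^ 2 - 1) * jl 1 s - 2 / s * djl 1 s) / jl 0 ρ

theorem djl_zero' (t : ℝ) : djl 0 t = -jl 1 t := by simp [djl]

theorem djl_one' {t : ℝ} (ht : 0 < t) : djl 1 t = jl 0 t - 2 / t * jl 1 t := by
  have := djl_succ 0 ht
  simpa using this

theorem bv0_hasDerivAt (ρ : ℝ) {s : ℝ} (hs : 0 < s) : HasDerivAt (bv0 ρ) (bp ρ s) s := by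
  refine (((jl_deriv 0 hs).div_const (jl 0 ρ)).const_sub 1).congr_deriv ?_
  rw [djl_zero', bp]
  ring

theorem bp_hasDerivAt (ρ : ℝ) {s : ℝ} (hs : 0 < s) : HasDerivAt (bp ρ) (bq ρ s) s :=
  (jl_deriv 1 hs).div_const (jl 0 ρ)

theorem djl_one_hasDerivAt {s : ℝ} (hs : 0 < s) :
    HasDerivAt (djl 1) ((2 / s ^ 2 - 1) * jl 1 s - 2 / s * djl 1 s) s := by
  have h1 : HasDerivAt (fun t : ℝ => jl 0 t - 2 / t * jl 1 t)
      (djl 0 s - (-2 / s ^ 2 * jl 1 s + 2 / s * djl 1 s)) s := by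
    have h2 : HasDerivAt (fun t : ℝ => 2 / t) (-2 / s ^ 2) s := by
      have := (hasDerivAt_const s (2 : ℝ)).div (hasDerivAt_id s) hs.ne'
      refine this.congr_deriv ?_
      simp
    exact (jl_deriv 0 hs).sub (h2.mul (jl_deriv 1 hs))
  have h3 : djl 1 =ᶠ[𝓝 s] fun t : ℝ => jl 0 t - 2 / t * jl 1 t := by
    filter_upwards [lt_mem_nhds hs] with t ht
    exact djl_one' ht
  refine (h1.congr_of_eventuallyEq h3).congr_deriv ?_
  rw [djl_zero', djl_one' hs]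
  field_simp
  ring

theorem bq_hasDerivAt (ρ : ℝ) {s : ℝ} (hs : 0 < s) : HasDerivAt (bq ρ) (bq3 ρ s) s :=
  (djl_one_hasDerivAt hs).div_const (jl 0 ρ)

section
variable {ρ : ℝ} (hρ : 0 < ρ) (h : Real.sin ρ = ρ * Real.cos ρ)
include hρ h

theorem jl_zero_rho : jl 0 ρ = Real.cos ρ := by
  rw [jl, h]
  field_simp

theorem jl_zero_rho_ne : jl 0 ρ ≠ 0 := by
  rw [jl_zero_rho hρ h]
  intro h0
  have := Real.sin_sq_add_cos_sq ρ
  rw [h, h0] at this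
  norm_num at this

theorem jl_one_rho : jl 1 ρ = 0 := by
  rw [jl, h]
  field_simp
  ring

theorem bv0_rho : bv0 ρ ρ = 0 := by
  rw [bv0, div_self (jl_zero_rho_ne hρ h), sub_self]

theorem bp_rho : bp ρ ρ = 0 := by
  rw [bp, jl_one_rho hρ h, zero_div]

theorem djl_one_rho : djl 1 ρ = jl 0 ρ := by
  rw [djl_one' hρ, jl_one_rho hρ h]
  ring

theorem bq_rho : bq ρ ρ = 1 := by
  rw [bq, djl_one_rho hρ h, div_self (jl_zero_rho_ne hρ h)]

theorem bq3_rho : bq3 ρ ρ = -2 / ρ := by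
  rw [bq3, jl_one_rho hρ h, djl_one_rho hρ h]
  have := jl_zero_rho_ne hρ h
  field_simp
  ring

theorem bode {s : ℝ} (hs : 0 < s) : s ^ 2 * bq ρ s + 2 * s * bp ρ s + s ^ 2 * (bv0 ρ s - 1) = 0 := by
  rw [bq, bp, bv0, djl_one' hs]
  have h1 := jl_zero_rho_ne hρ h
  have h2 := hs.ne'
  field_simp
  ring

theorem bode' {s : ℝ} (hs : 0 < s) :
    s ^ 2 * bq3 ρ s + 4 * s * bq ρ s + 2 * bp ρ s + 2 * s * (bv0 ρ s - 1) + s ^ 2 * bp ρ s = 0 := by
  rw [bq3, bq, bp, bv0, djl_one' hs]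
  have h1 := jl_zero_rho_ne hρ h
  have h2 := hs.ne'
  field_simp
  ring

/-- the background with the cubic cut-off -/
theorem bg (R0 w : ℝ) : Bg (Ioi 0) (bv0 ρ) (bp ρ) (bq ρ) (bq3 ρ) (cut R0 w) (cut1 R0 w) where
  pos := fun s hs => (ne_of_gt hs)
  dv0 := fun s hs => bv0_hasDerivAt ρ hs
  dp := fun s hs => bp_hasDerivAt ρ hs
  dq := fun s hs => bq_hasDerivAt ρ hs
  dch := fun s hs => cut_hasDerivAt R0 w s
  ode := fun s hs => bode hρ h hs
  ode' := fun s hs => bode' hρ h hs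

end

theorem Bg.mono {J J' : Set ℝ} {v0 p q q3 ch ch1 : ℝ → ℝ} (B : Bg J v0 p q q3 ch ch1) (h : J' ⊆ J) :
    Bg J' v0 p q q3 ch ch1 where
  pos := fun s hs => B.pos s (h hs)
  dv0 := fun s hs => B.dv0 s (h hs)
  dp := fun s hs => B.dp s (h hs)
  dq := fun s hs => B.dq s (h hs)
  dch := fun s hs => B.dch s (h hs)
  ode := fun s hs => B.ode s (h hs)
  ode' := fun s hs => B.ode' s (h hs)

end Pool.Agent.H36.SC
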