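import Pool.Agent.H36.SC.Jet

/-!
# MP_f4af34 (Schiffer in R^3): the contact transform in first order form, pointwise

`v0` with derivatives `p, q, q3` (functions of `s`), `s² q + 2 s p + s² (v0 - 1) = 0`;
cut-off `ch` with derivative `ch1`; `κ = ch1 + ch² q3`; unknown pair `(y, z)` with
`z_s = - y - (κ/2) y²`.  Contact radius `X = s + ch y`, and
`W = v0 + z + p e - (1/2) a y e`, `A = p - a y`, `e = ch y`, `a = 1 - ch q`.
Then `W_s = A X_s`, `W_x = z_x + A X_x`, and `r² r_s (Δ v + v - 1)` is the polynomial of the pair.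
-/

set_option autoImplicit false
set_option linter.deprecated false
set_option linter.unusedSimpArgs false
set_option linter.unusedVariables false
open Filter Topology Set

namespace Pool.Agent.H36.SC

/-- `f2`, the nonlinearity of the second equation (helper55's compact form);
`ld = Δ_S z / s²`, `ga = (1-x²) y_x²`. -/
noncomputable def F2 (s v0 p q q3 ch ch1 y ys z L ga : ℝ) : ℝ :=
  let e := ch * y
  let d := ch1 * y + ch * ys
  let ep := e / s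
  let a := 1 - ch * q
  let kap := ch1 + ch ^ 2 * q3
  (2 * ep + ep ^ 2) * (-ys + q3 * e + z + p * e)
    + (1 + ep) ^ 2 * (d * (z + p * e) - (1 + d) * a * y * e / 2)
    - (2 / s) * (ep + d + ep * d) * (a * y + p * ep) + d * L / s ^ 2
    + ch * (1 + kap * y) * ga / s ^ 2

/-- the pair equation implies the Helmholtz equation at the contact point -/
theorem pair_identity (s v0 p q q3 ch ch1 y ys z L ga : ℝ) (hs : s ≠ 0)
    (h0 : s ^ 2 * q + 2 * s * p + s ^ 2 * (v0 - 1) = 0)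
    (h1 : s ^ 2 * q3 + 4 * s * q + 2 * p + 2 * s * (v0 - 1) + s ^ 2 * p = 0)
    (hy : ys = -2 * y / s + z + L / s ^ 2 + F2 s v0 p q q3 ch ch1 y ys z L ga) :
    (s + ch * y) ^ 2 * (q - (1 - ch * q) * ys + (ch1 * q + ch * q3) * y)
      + 2 * (s + ch * y) * (1 + (ch1 * y + ch * ys)) * (p - (1 - ch * q) * y)
      + (1 + (ch1 * y + ch * ys)) * L + ch * (1 + (ch1 + ch ^ 2 * q3) * y) * ga
      + (s + ch * y) ^ 2 * (1 + (ch1 * y + ch * ys)) *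
        ((v0 - 1) + z + p * (ch * y) - 1 / 2 * (1 - ch * q) * y * (ch * y)) = 0 := by
  obtain ⟨pi, hpi⟩ : ∃ pi, pi = p / s := ⟨_, rfl⟩
  have hp : p = s * pi := by rw [hpi]; field_simp
  have hm : v0 - 1 = -q - 2 * pi := by
    have h2 : s ^ 2 * (v0 - 1 + q + 2 * pi) = 0 := by
      rw [hp] at h0
      linear_combination h0
    have h3 := (mul_eq_zero.1 h2).resolve_left (pow_ne_zero 2 hs)
    linear_combination h3
  have h3 : s * q3 + 2 * q - 2 * pi + s ^ 2 * pi = 0 := by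
    have h4 : s * (s * q3 + 2 * q - 2 * pi + s ^ 2 * pi) = 0 := by
      rw [hp] at h1
      linear_combination h1 - 2 * s * hm
    exact (mul_eq_zero.1 h4).resolve_left hs
  have hF : s ^ 2 * F2 s v0 p q q3 ch ch1 y ys z L ga =
      s ^ 2 * ys + 2 * s * y - s ^ 2 * z - L := by
    have h5 : s ^ 2 * ys = s ^ 2 * (-2 * y / s + z + L / s ^ 2 + F2 s v0 p q q3 ch ch1 y ys z L ga) := by
      rw [← hy]
    have h6 : s ^ 2 * (-2 * y / s + z + L / s ^ 2 + F2 s v0 p q q3 ch ch1 y ys z L ga) =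
      -2 * s * y + s ^ 2 * z + L + s ^ 2 * F2 s v0 p q q3 ch ch1 y ys z L ga := by
      field_simp
    rw [h6] at h5
    linear_combination -h5
  have hF2 : s ^ 2 * F2 s v0 p q q3 ch ch1 y ys z L ga =
    (2 * s * (ch * y) + (ch * y) ^ 2) * (-ys + q3 * (ch * y) + z + p * (ch * y))
    + (s + ch * y) ^ 2 * ((ch1 * y + ch * ys) * (z + p * (ch * y)) -
        (1 + (ch1 * y + ch * ys)) * (1 - ch * q) * y * (ch * y) / 2)
    - 2 * ((ch * y) + s * (ch1 * y + ch * ys) + (ch * y) * (ch1 * y + ch * ys)) *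
        ((1 - ch * q) * y + pi * (ch * y))
    + (ch1 * y + ch * ys) * L
    + ch * (1 + (ch1 + ch ^ 2 * q3) * y) * ga := by
    simp only [F2]
    rw [hpi]
    field_simp
  rw [hF] at hF2
  clear hF hy h0 h1 hpi
  subst hp
  rw [hm]
  linear_combination (-1 : ℝ) * hF2 + s * (ch * y) * h3

/-- background functions: `v0` and its derivatives, the cut-off and its derivative -/
structure Bg (J : Set ℝ) (v0 p q q3 ch ch1 : ℝ → ℝ) : Prop where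
  pos : ∀ s ∈ J, s ≠ 0
  dv0 : ∀ s ∈ J, HasDerivAt v0 (p s) s
  dp : ∀ s ∈ J, HasDerivAt p (q s) s
  dq : ∀ s ∈ J, HasDerivAt q (q3 s) s
  dch : ∀ s ∈ J, HasDerivAt ch (ch1 s) s
  ode : ∀ s ∈ J, s ^ 2 * q s + 2 * s * p s + s ^ 2 * (v0 s - 1) = 0
  ode' : ∀ s ∈ J, s ^ 2 * q3 s + 4 * s * q s + 2 * p s + 2 * s * (v0 s - 1) + s ^ 2 * p s = 0

/-- the pair `(y, z)` on `U` -/
structure Pair (U : Set (ℝ × ℝ)) (v0 p q q3 ch ch1 : ℝ → ℝ) (y ys yx z zx zxx : ℝ × ℝ → ℝ) : Prop where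
  dy : ∀ t ∈ U, HasFDerivAt y (hd (ys t) (yx t)) t
  dz : ∀ t ∈ U, HasFDerivAt z (hd (-y t - (ch1 t.1 + ch t.1 ^ 2 * q3 t.1) / 2 * y t ^ 2) (zx t)) t
  dzx : ∀ t ∈ U, HasFDerivAt zx (hd (-(1 + (ch1 t.1 + ch t.1 ^ 2 * q3 t.1) * y t) * yx t) (zxx t)) t
  eq : ∀ t ∈ U, ys t = -2 * y t / t.1 + z t + ((1 - t.2 ^ 2) * zxx t - 2 * t.2 * zx t) / t.1 ^ 2 +
    F2 t.1 (v0 t.1) (p t.1) (q t.1) (q3 t.1) (ch t.1) (ch1 t.1) (y t) (ys t) (z t)
      ((1 - t.2 ^ 2) * zxx t - 2 * t.2 * zx t) ((1 - t.2 ^ 2) * yx t ^ 2)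

section Contact

variable (v0 p q q3 ch ch1 : ℝ → ℝ) (y ys yx z zx zxx : ℝ × ℝ → ℝ)

/-- contact radius -/
def cX (t : ℝ × ℝ) : ℝ := t.1 + ch t.1 * y t
def cXs (t : ℝ × ℝ) : ℝ := 1 + (ch1 t.1 * y t + ch t.1 * ys t)
def cXx (t : ℝ × ℝ) : ℝ := ch t.1 * yx t
/-- `u = 1 - v` at the contact point -/
noncomputable def cG (t : ℝ × ℝ) : ℝ :=
  1 - (v0 t.1 + z t + p t.1 * (ch t.1 * y t) - 1 / 2 * (1 - ch t.1 * q t.1) * y t * (ch t.1 * y t))
/-- `u_r` -/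
def cf (t : ℝ × ℝ) : ℝ := -(p t.1 - (1 - ch t.1 * q t.1) * y t)
def cfs (t : ℝ × ℝ) : ℝ :=
  -(q t.1 - (1 - ch t.1 * q t.1) * ys t + (ch1 t.1 * q t.1 + ch t.1 * q3 t.1) * y t)
def cfx (t : ℝ × ℝ) : ℝ := (1 - ch t.1 * q t.1) * yx t
/-- `u_x` -/
def ch' (t : ℝ × ℝ) : ℝ := -zx t
def chs (t : ℝ × ℝ) : ℝ := (1 + (ch1 t.1 + ch t.1 ^ 2 * q3 t.1) * y t) * yx t
def chx (t : ℝ × ℝ) : ℝ := -zxx t

variable {v0 p q q3 ch ch1 y ys yx z zx zxx}

theorem hasFDerivAt_fst_comp {g : ℝ → ℝ} {g' : ℝ} {t : ℝ × ℝ} (h : HasDerivAt g g' t.1) :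
    HasFDerivAt (fun t : ℝ × ℝ => g t.1) (hd g' 0) t := by
  refine (h.comp_hasFDerivAt t hasFDerivAt_fst).congr_fderiv ?_
  refine ContinuousLinearMap.ext fun v => ?_
  simp [hd]

theorem hd_mul {f g : ℝ × ℝ → ℝ} {a b c d : ℝ} {t : ℝ × ℝ} (hf : HasFDerivAt f (hd a b) t)
    (hg : HasFDerivAt g (hd c d) t) :
    HasFDerivAt (fun t => f t * g t) (hd (f t * c + a * g t) (f t * d + b * g t)) t := by
  refine (hf.mul hg).congr_fderiv ?_
  refine ContinuousLinearMap.ext fun v => ?_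
  simp [hd]
  ring

theorem hd_add' {f g : ℝ × ℝ → ℝ} {a b c d : ℝ} {t : ℝ × ℝ} (hf : HasFDerivAt f (hd a b) t)
    (hg : HasFDerivAt g (hd c d) t) : HasFDerivAt (fun t => f t + g t) (hd (a + c) (b + d)) t := by
  refine (hf.add hg).congr_fderiv (hd_add _ _ _ _)

theorem hd_sub' {f g : ℝ × ℝ → ℝ} {a b c d : ℝ} {t : ℝ × ℝ} (hf : HasFDerivAt f (hd a b) t)
    (hg : HasFDerivAt g (hd c d) t) : HasFDerivAt (fun t => f t - g t) (hd (a - c) (b - d)) t := by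
  refine (hf.sub hg).congr_fderiv (hd_sub _ _ _ _)

theorem hd_neg' {f : ℝ × ℝ → ℝ} {a b : ℝ} {t : ℝ × ℝ} (hf : HasFDerivAt f (hd a b) t) :
    HasFDerivAt (fun t => -f t) (hd (-a) (-b)) t := by
  refine hf.neg.congr_fderiv ?_
  refine ContinuousLinearMap.ext fun v => ?_
  simp [hd]
  ring

theorem hd_const (c : ℝ) {t : ℝ × ℝ} : HasFDerivAt (fun _ : ℝ × ℝ => c) (hd 0 0) t := by
  refine (hasFDerivAt_const c t).congr_fderiv ?_
  refine ContinuousLinearMap.ext fun v => ?_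
  simp [hd]

theorem hd_congr {f : ℝ × ℝ → ℝ} {a b c d : ℝ} {t : ℝ × ℝ} (hf : HasFDerivAt f (hd a b) t)
    (h1 : a = c) (h2 : b = d) : HasFDerivAt f (hd c d) t := by
  subst h1
  subst h2
  exact hf

variable {J : Set ℝ} {U : Set (ℝ × ℝ)}

theorem cX_hd (B : Bg J v0 p q q3 ch ch1) (P : Pair U v0 p q q3 ch ch1 y ys yx z zx zxx)
    {t : ℝ × ℝ} (ht : t ∈ U) (hJ : t.1 ∈ J) :
    HasFDerivAt (cX ch y) (hd (cXs ch ch1 y ys t) (cXx ch yx t)) t := by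
  have h1 : HasFDerivAt (fun t : ℝ × ℝ => t.1) (hd 1 0) t :=
    hasFDerivAt_fst_comp (g := fun s => s) (hasDerivAt_id t.1)
  refine hd_congr (hd_add' h1 (hd_mul (hasFDerivAt_fst_comp (B.dch _ hJ)) (P.dy t ht))) ?_ ?_
  · simp only [cXs]; ring
  · simp only [cXx]; ring

theorem ca_hd (B : Bg J v0 p q q3 ch ch1) {t : ℝ × ℝ} (hJ : t.1 ∈ J) :
    HasFDerivAt (fun t : ℝ × ℝ => 1 - ch t.1 * q t.1) (hd (-(ch1 t.1 * q t.1 + ch t.1 * q3 t.1)) 0) t := by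
  refine hd_congr (hd_sub' (hd_const 1) (hd_mul (hasFDerivAt_fst_comp (B.dch _ hJ)) (hasFDerivAt_fst_comp (B.dq _ hJ)))) ?_ ?_
  · ring
  · ring

theorem cf_hd (B : Bg J v0 p q q3 ch ch1) (P : Pair U v0 p q q3 ch ch1 y ys yx z zx zxx)
    {t : ℝ × ℝ} (ht : t ∈ U) (hJ : t.1 ∈ J) :
    HasFDerivAt (cf p q ch y) (hd (cfs q q3 ch ch1 y ys t) (cfx q ch yx t)) t := by
  refine hd_congr (hd_neg' (hd_sub' (hasFDerivAt_fst_comp (B.dp _ hJ)) (hd_mul (ca_hd B hJ) (P.dy t ht)))) ?_ ?_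
  · simp only [cfs]; ring
  · simp only [cfx]; ring

theorem ch_hd (P : Pair U v0 p q q3 ch ch1 y ys yx z zx zxx) {t : ℝ × ℝ} (ht : t ∈ U) :
    HasFDerivAt (ch' zx) (hd (chs q3 ch ch1 y yx t) (chx zxx t)) t := by
  refine hd_congr (hd_neg' (P.dzx t ht)) ?_ ?_
  · simp only [chs]; ring
  · simp only [chx]

theorem cG_hd (B : Bg J v0 p q q3 ch ch1) (P : Pair U v0 p q q3 ch ch1 y ys yx z zx zxx)
    {t : ℝ × ℝ} (ht : t ∈ U) (hJ : t.1 ∈ J) :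
    HasFDerivAt (cG v0 p q ch y z)
      (hd (cf p q ch y t * cXs ch ch1 y ys t) (ch' zx t + cf p q ch y t * cXx ch yx t)) t := by
  have he := hd_mul (hasFDerivAt_fst_comp (B.dch _ hJ)) (P.dy t ht)
  have ha := ca_hd B hJ
  have h1 := hd_add' (hd_add' (hasFDerivAt_fst_comp (B.dv0 _ hJ)) (P.dz t ht))
    (hd_mul (hasFDerivAt_fst_comp (B.dp _ hJ)) he)
  have h2 := hd_mul (hd_mul (hd_mul (hd_const (1 / 2)) ha) (P.dy t ht)) he
  refine hd_congr (hd_sub' (hd_const 1) (hd_sub' h1 h2)) ?_ ?_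
  · simp only [cf, cXs]; ring
  · simp only [ch', cf, cXx]; ring

/-- the Helmholtz equation at the contact point -/
theorem c_pde (B : Bg J v0 p q q3 ch ch1) (P : Pair U v0 p q q3 ch ch1 y ys yx z zx zxx)
    {t : ℝ × ℝ} (ht : t ∈ U) (hJ : t.1 ∈ J) (hX : cX ch y t ≠ 0) (hXs : cXs ch ch1 y ys t ≠ 0) :
    cfs q q3 ch ch1 y ys t / cXs ch ch1 y ys t + 2 * cf p q ch y t / cX ch y t
      + ((1 - t.2 ^ 2) * (chx zxx t - cXx ch yx t * chs q3 ch ch1 y yx t / cXs ch ch1 y ys t)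
        - 2 * t.2 * ch' zx t) / cX ch y t ^ 2 + cG v0 p q ch y z t = 0 := by
  have key := pair_identity t.1 (v0 t.1) (p t.1) (q t.1) (q3 t.1) (ch t.1) (ch1 t.1) (y t) (ys t) (z t)
    ((1 - t.2 ^ 2) * zxx t - 2 * t.2 * zx t) ((1 - t.2 ^ 2) * yx t ^ 2) (B.pos _ hJ) (B.ode _ hJ) (B.ode' _ hJ)
    (P.eq t ht)
  have hX' : t.1 + ch t.1 * y t ≠ 0 := hX
  have hXs' : 1 + (ch1 t.1 * y t + ch t.1 * ys t) ≠ 0 := hXs
  simp only [cfs, cXs, cf, cX, chx, cXx, chs, ch', cG]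
  generalize hXX : t.1 + ch t.1 * y t = X at *
  generalize hSS : 1 + (ch1 t.1 * y t + ch t.1 * ys t) = S at *
  have e : ∀ T : ℝ, X ^ 2 * S * T = 0 → T = 0 := fun T hT =>
    (mul_eq_zero.1 hT).resolve_left (mul_ne_zero (pow_ne_zero 2 hX') hXs')
  apply e
  field_simp
  linear_combination (-2 : ℝ) * key
end Contact

end Pool.Agent.H36.SC
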