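import Pool.Agent.H36.SC.Bes
import Pool.Agent.H94.SF.Defs
import Pool.Agent.H97.SF.PD

/-!
# `Bg` and `BgFull` for the background functions of `Pool.Agent.H94.SF.Defs`
-/

set_option autoImplicit false
set_option linter.deprecated false
set_option linter.unusedSimpArgs false
set_option linter.unusedVariables false
open Filter Topology Set

namespace SF

open Pool.Agent.H36.SC
open Pool.Agent.H68.SC (jl djl)

theorem hsin : Real.sin rho = rho * Real.cos rho := SN.sin_rho
theorem rho_pos : 0 < rho := SN.rho_pos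

theorem wd_pos : 0 < wd := by unfold wd; norm_num
theorem R0_pos' : 0 < R0 := by
  have := SN.rho_gt
  unfold R0 wd rho
  linarith
theorem R0_lt_rho : R0 < rho := by unfold R0 wd; linarith

theorem chi_eq : chi = cut R0 wd := rfl
theorem chi1_eq : chi1 = cut1 R0 wd := rfl
theorem v0_eq : v0 = bv0 rho := rfl
theorem v1_eq : v1 = bp rho := rfl
theorem v2_eq {s : ℝ} (_ : 0 < s) : v2 s = bq rho s := rfl
theorem v3_eq {s : ℝ} (_ : 0 < s) : v3 s = bq3 rho s := rfl

theorem v0_hasDerivAt {s : ℝ} (hs : 0 < s) : HasDerivAt v0 (v1 s) s := bv0_hasDerivAt rho hs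

theorem v1_hasDerivAt {s : ℝ} (hs : 0 < s) : HasDerivAt v1 (v2 s) s := by
  rw [v2_eq hs]
  exact bp_hasDerivAt rho hs

theorem v2_hasDerivAt {s : ℝ} (hs : 0 < s) : HasDerivAt v2 (v3 s) s := by
  rw [v3_eq hs]
  refine (bq_hasDerivAt rho hs).congr_of_eventuallyEq ?_
  filter_upwards [lt_mem_nhds hs] with t ht
  exact v2_eq ht

theorem chi_hasDerivAt (s : ℝ) : HasDerivAt chi (chi1 s) s := by
  rw [chi_eq, chi1_eq]
  exact cut_hasDerivAt R0 wd s

theorem ode {s : ℝ} (hs : 0 < s) : s ^ 2 * v2 s + 2 * s * v1 s + s ^ 2 * (v0 s - 1) = 0 := by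
  rw [v2_eq hs]
  exact bode rho_pos hsin hs

theorem ode' {s : ℝ} (hs : 0 < s) :
    s ^ 2 * v3 s + 4 * s * v2 s + 2 * v1 s + 2 * s * (v0 s - 1) + s ^ 2 * v1 s = 0 := by
  rw [v2_eq hs, v3_eq hs]
  exact bode' rho_pos hsin hs

theorem bgSF : Bg (Ioi 0) v0 v1 v2 v3 chi chi1 where
  pos := fun s hs => (ne_of_gt hs)
  dv0 := fun s hs => v0_hasDerivAt hs
  dp := fun s hs => v1_hasDerivAt hs
  dq := fun s hs => v2_hasDerivAt hs
  dch := fun s hs => chi_hasDerivAt s
  ode := fun s hs => ode hs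
  ode' := fun s hs => ode' hs

theorem v0_rho : v0 rho = 0 := bv0_rho rho_pos hsin
theorem v1_rho : v1 rho = 0 := bp_rho rho_pos hsin
theorem v2_rho : v2 rho = 1 := by rw [v2_eq rho_pos]; exact bq_rho rho_pos hsin
theorem v3_rho : v3 rho = -2 / rho := by rw [v3_eq rho_pos]; exact bq3_rho rho_pos hsin
theorem chi_rho : chi rho = 1 := by
  have h := cut_end (R0 := R0) wd_pos
  have h2 : R0 + wd = rho := by unfold R0; ring
  rw [h2] at h
  exact h
theorem aa_rho : aa rho = 0 := by unfold aa; rw [chi_rho, v2_rho]; ring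
theorem chi_of_le {s : ℝ} (h : s ≤ R0) : chi s = 0 := cut_of_le h
theorem chi1_of_le {s : ℝ} (h : s ≤ R0) : chi1 s = 0 := cut1_of_le h
theorem kap_of_le {s : ℝ} (h : s ≤ R0) : kap s = 0 := by
  unfold kap
  rw [chi_of_le h, chi1_of_le h]
  ring

theorem v0_cont : ContinuousOn v0 (Ioi 0) := fun s hs => (v0_hasDerivAt hs).continuousAt.continuousWithinAt
theorem v1_cont : ContinuousOn v1 (Ioi 0) := fun s hs => (v1_hasDerivAt hs).continuousAt.continuousWithinAt
theorem v2_cont : ContinuousOn v2 (Ioi 0) := fun s hs => (v2_hasDerivAt hs).continuousAt.continuousWithinAt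
theorem v3_cont : ContinuousOn v3 (Ioi 0) := by
  have h1 : ContinuousOn (jl 1) (Ioi 0) := fun s hs =>
    (Pool.Agent.H68.SC.jl_deriv 1 hs).continuousAt.continuousWithinAt
  have h2 : ContinuousOn (djl 1) (Ioi 0) := fun s hs =>
    (djl_one_hasDerivAt hs).continuousAt.continuousWithinAt
  have h3 : ContinuousOn (fun s : ℝ => 2 / s) (Ioi 0) :=
    continuousOn_const.div continuousOn_id fun s hs => ne_of_gt hs
  have h4 : ContinuousOn (fun s : ℝ => 2 / s ^ 2) (Ioi 0) :=
    continuousOn_const.div (continuousOn_id.pow 2) fun s hs => pow_ne_zero 2 (ne_of_gt hs)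
  exact (((h4.sub continuousOn_const).mul h1).sub (h3.mul h2)).div_const _
theorem chi_cont : Continuous chi := continuous_cut R0 wd
theorem chi1_cont : Continuous chi1 := continuous_cut1 R0 wd
theorem kap_cont : ContinuousOn kap (Ioi 0) :=
  chi1_cont.continuousOn.add ((chi_cont.continuousOn.pow 2).mul v3_cont)

/-- helper97's `BgFull` for the problem -/
theorem bgFull {a : ℝ} (h0 : 0 < a) (h1 : a < R0) :
    Pool.Agent.H97.SF.BgFull a R0 rho v0 v1 v2 v3 chi chi1 where
  a_pos := h0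
  ab := h1
  bρ := R0_lt_rho
  bg := bgSF.mono fun s hs => h0.trans hs.1
  cq3 := v3_cont.mono fun s hs => h0.trans hs.1
  cch1 := chi1_cont.continuousOn
  cv0 := v0_cont.mono fun s hs => h0.trans hs.1
  cp := v1_cont.mono fun s hs => h0.trans hs.1
  cq := v2_cont.mono fun s hs => h0.trans hs.1
  cch := chi_cont.continuousOn
  ch0 := fun s hs => chi_of_le hs.le
  v0ρ := v0_rho
  pρ := v1_rho
  chρ := chi_rho
  qρ := v2_rho

end SF
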