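import Mathlib

/-!
# MP_f4af34 (Schiffer in R^3), block 1: notation

`hd a b` is the linear form `a dr + b dx` on `ℝ × ℝ`.
-/

set_option autoImplicit false
open Filter Topology Set

namespace Pool.Agent.H36.SC

abbrev E3 := EuclideanSpace ℝ (Fin 3)

/-- the linear form `a dr + b dx` -/
noncomputable def hd (a b : ℝ) : ℝ × ℝ →L[ℝ] ℝ :=
  a • ContinuousLinearMap.fst ℝ ℝ ℝ + b • ContinuousLinearMap.snd ℝ ℝ ℝ

@[simp] theorem hd_apply (a b : ℝ) (p : ℝ × ℝ) : hd a b p = a * p.1 + b * p.2 := by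
  simp [hd]

theorem hd_add (a b c d : ℝ) : hd a b + hd c d = hd (a + c) (b + d) := by
  ext <;> simp [hd]

theorem hd_sub (a b c d : ℝ) : hd a b - hd c d = hd (a - c) (b - d) := by
  ext <;> simp [hd]

theorem hd_smul (t a b : ℝ) : t • hd a b = hd (t * a) (t * b) := by
  ext <;> simp [hd]

theorem continuous_hd : Continuous fun p : ℝ × ℝ => hd p.1 p.2 := by
  unfold hd
  fun_prop

/-- the cosine of the polar angle -/
noncomputable def cs (X : E3) : ℝ := X 2 / ‖X‖

/-- the pair (radius, cosine of the polar angle) -/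
noncomputable def rc (X : E3) : ℝ × ℝ := (‖X‖, cs X)

end Pool.Agent.H36.SC
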