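import Pool.Agent.H36.SC.Contact

/-!
# The cubic cut-off
-/

set_option autoImplicit false
set_option linter.deprecated false
set_option linter.unusedSimpArgs false
set_option linter.unusedVariables false
open Filter Topology Set

namespace Pool.Agent.H36.SC

/-- positive part -/
def ppt (t : ℝ) : ℝ := max t 0

theorem ppt_of_nonneg {t : ℝ} (h : 0 ≤ t) : ppt t = t := max_eq_left h
theorem ppt_of_nonpos {t : ℝ} (h : t ≤ 0) : ppt t = 0 := max_eq_right h
theorem ppt_nonneg (t : ℝ) : 0 ≤ ppt t := le_max_right _ _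
theorem continuous_ppt : Continuous ppt := by unfold ppt; fun_prop

theorem abs_ppt_le (t : ℝ) : |ppt t| ≤ |t| := by
  rcases le_total 0 t with h | h
  · rw [ppt_of_nonneg h]
  · rw [ppt_of_nonpos h]; simp

theorem ppt_pow_hasDerivAt (n : ℕ) (t : ℝ) :
    HasDerivAt (fun t => ppt t ^ (n + 2)) ((n + 2) * ppt t ^ (n + 1)) t := by
  rcases lt_trichotomy t 0 with h | h | h
  · have h1 : (fun t => ppt t ^ (n + 2)) =ᶠ[𝓝 t] fun _ => 0 := by
      filter_upwards [Iio_mem_nhds h] with s hs
      rw [ppt_of_nonpos (le_of_lt hs)]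
      simp
    rw [ppt_of_nonpos h.le]
    have h2 := (hasDerivAt_const t (0 : ℝ)).congr_of_eventuallyEq h1
    simpa using h2
  · subst h
    rw [ppt_of_nonpos le_rfl]
    simp only [ne_eq, Nat.add_eq_zero_iff, one_ne_zero, and_false, not_false_eq_true, zero_pow, mul_zero]
    rw [hasDerivAt_iff_isLittleO]
    simp only [sub_zero, smul_eq_mul, mul_zero]
    rw [ppt_of_nonpos le_rfl]
    simp only [ne_eq, Nat.add_eq_zero_iff, OfNat.ofNat_ne_zero, and_false, not_false_eq_true, zero_pow, sub_zero]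
    rw [Asymptotics.isLittleO_iff]
    intro c hc
    have hev : ∀ᶠ s : ℝ in 𝓝 0, |s| < min c 1 := by
      have : Tendsto (fun s : ℝ => |s|) (𝓝 0) (𝓝 0) := by
        have := continuous_abs.tendsto (0 : ℝ)
        simpa using this
      exact this.eventually_lt_const (lt_min hc one_pos)
    filter_upwards [hev] with s hs
    have h1 : |s| < c := hs.trans_le (min_le_left _ _)
    have h2 : |s| < 1 := hs.trans_le (min_le_right _ _)
    have h3 := abs_ppt_le s
    rw [Real.norm_eq_abs, Real.norm_eq_abs, abs_pow]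
    calc |ppt s| ^ (n + 2) ≤ |s| ^ (n + 2) := pow_le_pow_left₀ (abs_nonneg _) h3 _
      _ = |s| ^ n * |s| * |s| := by ring
      _ ≤ 1 * c * |s| := by
          have : |s| ^ n ≤ 1 := pow_le_one₀ (abs_nonneg _) h2.le
          gcongr
      _ = c * |s| := by ring
  · have h1 : (fun t => ppt t ^ (n + 2)) =ᶠ[𝓝 t] fun t => t ^ (n + 2) := by
      filter_upwards [Ioi_mem_nhds h] with s hs
      rw [ppt_of_nonneg (le_of_lt hs)]
    rw [ppt_of_nonneg h.le]
    have h2 := (hasDerivAt_pow (n + 2) t).congr_of_eventuallyEq h1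
    refine h2.congr_deriv ?_
    push_cast
    rfl

/-- the cut-off `((s - R0)⁺ / w)³` -/
noncomputable def cut (R0 w s : ℝ) : ℝ := ppt (s - R0) ^ 3 / w ^ 3
noncomputable def cut1 (R0 w s : ℝ) : ℝ := 3 * ppt (s - R0) ^ 2 / w ^ 3
noncomputable def cut2 (R0 w s : ℝ) : ℝ := 6 * ppt (s - R0) / w ^ 3

theorem cut_hasDerivAt (R0 w s : ℝ) : HasDerivAt (cut R0 w) (cut1 R0 w s) s := by
  have h := (ppt_pow_hasDerivAt 1 (s - R0)).comp s ((hasDerivAt_id s).sub_const R0)
  have h2 := h.div_const (w ^ 3)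
  refine (h2.congr_deriv ?_)
  simp only [cut1]
  norm_num

theorem cut1_hasDerivAt (R0 w s : ℝ) : HasDerivAt (cut1 R0 w) (cut2 R0 w s) s := by
  have h := (ppt_pow_hasDerivAt 0 (s - R0)).comp s ((hasDerivAt_id s).sub_const R0)
  have h2 := (h.const_mul 3).div_const (w ^ 3)
  refine (h2.congr_deriv ?_)
  simp only [cut2]
  norm_num
  ring

theorem continuous_cut (R0 w : ℝ) : Continuous (cut R0 w) := by
  unfold cut
  exact ((continuous_ppt.comp (continuous_id.sub continuous_const)).pow 3).div_const _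

theorem continuous_cut1 (R0 w : ℝ) : Continuous (cut1 R0 w) := by
  unfold cut1
  exact (continuous_const.mul ((continuous_ppt.comp (continuous_id.sub continuous_const)).pow 2)).div_const _

theorem continuous_cut2 (R0 w : ℝ) : Continuous (cut2 R0 w) := by
  unfold cut2
  exact (continuous_const.mul (continuous_ppt.comp (continuous_id.sub continuous_const))).div_const _

theorem cut_of_le {R0 w s : ℝ} (h : s ≤ R0) : cut R0 w s = 0 := by
  unfold cut
  rw [ppt_of_nonpos (by linarith)]
  simp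

theorem cut1_of_le {R0 w s : ℝ} (h : s ≤ R0) : cut1 R0 w s = 0 := by
  unfold cut1
  rw [ppt_of_nonpos (by linarith)]
  simp

theorem cut_end {R0 w : ℝ} (hw : 0 < w) : cut R0 w (R0 + w) = 1 := by
  unfold cut
  rw [ppt_of_nonneg (by linarith)]
  field_simp
  ring

end Pool.Agent.H36.SC
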