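import Pool.Agent.H36.SC.Jet

/-!
# Block 1, part P: the Laplacian of a function of `(‖X‖, cs X)` on `ℝ³`
-/

set_option autoImplicit false
set_option linter.deprecated false
set_option linter.unusedSimpArgs false
open Filter Topology Set

namespace Pool.Agent.H36.SC

/-- the linear form `Y ↦ Y 2` -/
noncomputable def prj (i : Fin 3) : E3 →L[ℝ] ℝ := EuclideanSpace.proj i

@[simp] theorem prj_apply (i : Fin 3) (X : E3) : prj i X = X i := rfl

/-- the derivative of the norm -/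
noncomputable def dN (Y : E3) : E3 →L[ℝ] ℝ := ‖Y‖⁻¹ • innerSL ℝ Y

/-- the derivative of `cs` -/
noncomputable def dC (Y : E3) : E3 →L[ℝ] ℝ := ‖Y‖⁻¹ • prj 2 - (Y 2 * ‖Y‖⁻¹ ^ 3) • innerSL ℝ Y

theorem hasFDerivAt_nrm {Y : E3} (hY : Y ≠ 0) : HasFDerivAt (fun X : E3 => ‖X‖) (dN Y) Y := by
  have h1 : HasFDerivAt (fun X : E3 => ‖X‖ ^ 2) (2 • innerSL ℝ Y) Y :=
    (hasStrictFDerivAt_norm_sq Y).hasFDerivAt
  have hn : ‖Y‖ ≠ 0 := norm_ne_zero_iff.2 hY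
  have h2 := h1.sqrt (by positivity)
  have h3 : (fun X : E3 => √(‖X‖ ^ 2)) = fun X => ‖X‖ := by
    funext X
    exact Real.sqrt_sq (norm_nonneg X)
  rw [h3, Real.sqrt_sq (norm_nonneg Y)] at h2
  refine h2.congr_fderiv (ContinuousLinearMap.ext fun v => ?_)
  simp only [dN, ContinuousLinearMap.smul_apply, innerSL_apply_apply, smul_eq_mul, nsmul_eq_mul, Nat.cast_ofNat]
  field_simp

theorem hasFDerivAt_nrm_inv {Y : E3} (hY : Y ≠ 0) :
    HasFDerivAt (fun X : E3 => ‖X‖⁻¹) (-(‖Y‖⁻¹ ^ 3) • innerSL ℝ Y) Y := by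
  have hn : ‖Y‖ ≠ 0 := norm_ne_zero_iff.2 hY
  have h := (hasDerivAt_inv hn).comp_hasFDerivAt Y (hasFDerivAt_nrm hY)
  refine h.congr_fderiv ?_
  ext v
  simp only [dN, ContinuousLinearMap.smul_apply, innerSL_apply_apply, smul_eq_mul]
  field_simp

theorem hasFDerivAt_cs {Y : E3} (hY : Y ≠ 0) : HasFDerivAt cs (dC Y) Y := by
  have h1 : HasFDerivAt (fun X : E3 => X 2) (prj 2) Y := (prj 2).hasFDerivAt
  have h := h1.mul (hasFDerivAt_nrm_inv hY)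
  have h3 : (fun X : E3 => X 2 * ‖X‖⁻¹) = cs := by
    funext X
    simp [cs, div_eq_mul_inv]
  have h4 : HasFDerivAt (fun X : E3 => X 2 * ‖X‖⁻¹) (dC Y) Y := by
    refine h.congr_fderiv ?_
    ext v
    simp only [dC, ContinuousLinearMap.add_apply, ContinuousLinearMap.sub_apply, ContinuousLinearMap.smul_apply,
      innerSL_apply_apply, smul_eq_mul, prj_apply]
    ring
  rw [h3] at h4
  exact h4

theorem hasFDerivAt_rc {Y : E3} (hY : Y ≠ 0) : HasFDerivAt rc ((dN Y).prod (dC Y)) Y :=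
  (hasFDerivAt_nrm hY).prodMk (hasFDerivAt_cs hY)

theorem hasFDerivAt_comp_rc {V : ℝ × ℝ → ℝ} {a b : ℝ} {Y : E3} (hY : Y ≠ 0)
    (hV : HasFDerivAt V (hd a b) (rc Y)) :
    HasFDerivAt (fun X => V (rc X)) (a • dN Y + b • dC Y) Y := by
  have h := hV.comp Y (hasFDerivAt_rc hY)
  refine h.congr_fderiv ?_
  ext v
  simp

theorem nrm_sq (Y : E3) : ‖Y‖ ^ 2 = Y 0 ^ 2 + Y 1 ^ 2 + Y 2 ^ 2 := by
  rw [EuclideanSpace.norm_sq_eq]
  simp [Fin.sum_univ_three]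

/-- The Laplacian of `V(‖X‖, cs X)`. -/
theorem laplace_rc {V Vr Vx : ℝ × ℝ → ℝ} {rr rx xx : ℝ} {X : E3} (hX : X ≠ 0)
    (hV : ∀ᶠ p in 𝓝 (rc X), HasFDerivAt V (hd (Vr p) (Vx p)) p)
    (hVr : HasFDerivAt Vr (hd rr rx) (rc X)) (hVx : HasFDerivAt Vx (hd rx xx) (rc X)) :
    DifferentiableAt ℝ (fderiv ℝ (fun Y => V (rc Y))) X ∧
    ∑ i : Fin 3, fderiv ℝ (fderiv ℝ (fun Y => V (rc Y))) X (EuclideanSpace.single i (1 : ℝ))
      (EuclideanSpace.single i (1 : ℝ)) =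
    rr + 2 / ‖X‖ * Vr (rc X) + ((1 - cs X ^ 2) * xx - 2 * cs X * Vx (rc X)) / ‖X‖ ^ 2 := by
  have hcont : ContinuousAt rc X := (hasFDerivAt_rc hX).continuousAt
  have hne : ∀ᶠ Y in 𝓝 X, Y ≠ 0 := isOpen_ne.mem_nhds hX
  have h1 : ∀ᶠ Y in 𝓝 X, HasFDerivAt (fun Z => V (rc Z)) (Vr (rc Y) • dN Y + Vx (rc Y) • dC Y) Y := by
    filter_upwards [hcont.eventually hV, hne] with Y hY hY0
    exact hasFDerivAt_comp_rc hY0 hY
  have h2 : fderiv ℝ (fun Z => V (rc Z)) =ᶠ[𝓝 X] fun Y => Vr (rc Y) • dN Y + Vx (rc Y) • dC Y := by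
    filter_upwards [h1] with Y hY
    exact hY.fderiv
  -- the derivative of the gradient
  have hA : HasFDerivAt (fun Y : E3 => Vr (rc Y)) (rr • dN X + rx • dC X) X := hasFDerivAt_comp_rc hX hVr
  have hB : HasFDerivAt (fun Y : E3 => Vx (rc Y)) (rx • dN X + xx • dC X) X := hasFDerivAt_comp_rc hX hVx
  have hinv := hasFDerivAt_nrm_inv hX
  have hin : HasFDerivAt (fun Y : E3 => innerSL ℝ Y) (innerSL ℝ : E3 →L[ℝ] E3 →L[ℝ] ℝ) X := (innerSL ℝ).hasFDerivAt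
  have hpr : HasFDerivAt (fun Y : E3 => Y 2) (prj 2) X := (prj 2).hasFDerivAt
  have hdN : HasFDerivAt dN _ X := hinv.smul hin
  have hdC : HasFDerivAt dC _ X := (hinv.smul_const (prj 2)).sub ((hpr.mul (hinv.pow 3)).smul hin)
  have hG := (hA.smul hdN).add (hB.smul hdC)
  have hG' := hG.congr_of_eventuallyEq h2
  refine ⟨hG'.differentiableAt, ?_⟩
  have hn : ‖X‖ ≠ 0 := norm_ne_zero_iff.2 hX
  have hs := nrm_sq X
  rw [hG'.fderiv]
  have hcs : cs X = X 2 / ‖X‖ := rfl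
  rw [hcs]
  simp only [Fin.sum_univ_three, ContinuousLinearMap.add_apply, ContinuousLinearMap.sub_apply,
    ContinuousLinearMap.smul_apply, ContinuousLinearMap.smulRight_apply, innerSL_apply_apply, smul_eq_mul, prj_apply, dN, dC,
    EuclideanSpace.inner_single_right, EuclideanSpace.single_apply, Fin.isValue, Fin.reduceEq, if_true, if_false,
    conj_trivial, one_mul, mul_one, ContinuousLinearMap.neg_apply, ContinuousLinearMap.toSpanSingleton_apply, nsmul_eq_mul]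
  have hone : ∀ i : Fin 3, ((innerSL ℝ) (EuclideanSpace.single i (1 : ℝ))) (EuclideanSpace.single i (1 : ℝ)) = 1 := by
    intro i
    simp
  have h0 := hone 0
  have h1' := hone 1
  have h2' := hone 2
  rw [h0, h1', h2']
  simp only [Pi.mul_apply, Nat.add_one_sub_one, Nat.cast_ofNat, mul_one, mul_zero, zero_sub, add_zero, div_eq_mul_inv]
  have hσ : (X 0 ^ 2 + X 1 ^ 2 + X 2 ^ 2) * ‖X‖⁻¹ ^ 2 = 1 := by
    rw [← hs]
    field_simp
  have hi : (‖X‖ ^ 2)⁻¹ = ‖X‖⁻¹ ^ 2 := by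
    rw [inv_pow]
  rw [hi]
  generalize ‖X‖⁻¹ = a at *
  generalize Vr (rc X) = vr at *
  generalize Vx (rc X) = vx at *
  linear_combination (-a * vr + rr - 2 * rx * a ^ 2 * X 2 + 3 * X 2 * a ^ 3 * vx + X 2 ^ 2 * a ^ 4 * xx) * hσ

end Pool.Agent.H36.SC
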