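import Pool.Agent.H36.SC.Jet

/-!
# Block 1: termwise differentiation of series on open convex sets of `ℝ × ℝ`
-/

set_option autoImplicit false
set_option linter.deprecated false
set_option linter.unusedSimpArgs false
open Filter Topology Set

namespace Pool.Agent.H36.SC

theorem hd_norm_le (a b : ℝ) : ‖hd a b‖ ≤ |a| + |b| := by
  refine ContinuousLinearMap.opNorm_le_bound _ (by positivity) fun p => ?_
  rw [hd_apply, Real.norm_eq_abs]
  calc |a * p.1 + b * p.2| ≤ |a * p.1| + |b * p.2| := abs_add_le _ _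
    _ = |a| * |p.1| + |b| * |p.2| := by rw [abs_mul, abs_mul]
    _ ≤ |a| * ‖p‖ + |b| * ‖p‖ := by
        gcongr
        · exact norm_fst_le p
        · exact norm_snd_le p
    _ = (|a| + |b|) * ‖p‖ := by ring

theorem hd_tsum {u v : ℕ → ℝ} (hu : Summable u) (hv : Summable v) :
    ∑' k, hd (u k) (v k) = hd (∑' k, u k) (∑' k, v k) := by
  have h1 : HasSum (fun k => hd (u k) (v k)) (hd (∑' k, u k) (∑' k, v k)) := by
    unfold hd
    exact (hu.hasSum.smul_const _).add (hv.hasSum.smul_const _)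
  exact h1.tsum_eq

theorem summable_of_abs {f b : ℕ → ℝ} (hb : Summable b) (h : ∀ k, |f k| ≤ b k) : Summable f :=
  Summable.of_norm_bounded hb fun k => by
    rw [Real.norm_eq_abs]
    exact h k

/-- termwise differentiation -/
theorem tsum_hd {S : Set (ℝ × ℝ)} (hS : IsOpen S) (cS : Convex ℝ S) {f f1 f2 : ℕ → ℝ × ℝ → ℝ}
    (hf : ∀ k, ∀ q ∈ S, HasFDerivAt (f k) (hd (f1 k q) (f2 k q)) q) {b : ℕ → ℝ} (hb : Summable b)
    (h0 : ∀ k, ∀ q ∈ S, |f k q| ≤ b k) (h1 : ∀ k, ∀ q ∈ S, |f1 k q| ≤ b k)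
    (h2 : ∀ k, ∀ q ∈ S, |f2 k q| ≤ b k) {p : ℝ × ℝ} (hp : p ∈ S) :
    HasFDerivAt (fun q => ∑' k, f k q) (hd (∑' k, f1 k p) (∑' k, f2 k p)) p := by
  have key := hasFDerivAt_tsum_of_isPreconnected (𝕜 := ℝ) (f := f)
    (f' := fun k q => hd (f1 k q) (f2 k q)) (u := fun k => b k + b k)
    (hb.add hb) hS cS.isPreconnected (fun k q hq => hf k q hq)
    (fun k q hq => (hd_norm_le _ _).trans (add_le_add (h1 k q hq) (h2 k q hq))) hp
    (summable_of_abs hb fun k => h0 k p hp) hp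
  rw [hd_tsum (summable_of_abs hb fun k => h1 k p hp) (summable_of_abs hb fun k => h2 k p hp)] at key
  exact key

theorem tsum_cont {S : Set (ℝ × ℝ)} {f : ℕ → ℝ × ℝ → ℝ} (hf : ∀ k, ContinuousOn (f k) S) {b : ℕ → ℝ}
    (hb : Summable b) (h0 : ∀ k, ∀ q ∈ S, |f k q| ≤ b k) : ContinuousOn (fun q => ∑' k, f k q) S :=
  continuousOn_tsum hf hb fun k q hq => by
    rw [Real.norm_eq_abs]
    exact h0 k q hq

/-- a function whose first partial derivatives have continuous first partial derivatives is `C²` -/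
theorem contDiffOn_two_of_jet {S : Set (ℝ × ℝ)} (hS : IsOpen S) {F F1 F2 F11 F12 F21 F22 : ℝ × ℝ → ℝ}
    (h : ∀ q ∈ S, HasFDerivAt F (hd (F1 q) (F2 q)) q)
    (h1 : ∀ q ∈ S, HasFDerivAt F1 (hd (F11 q) (F12 q)) q)
    (h2 : ∀ q ∈ S, HasFDerivAt F2 (hd (F21 q) (F22 q)) q)
    (c11 : ContinuousOn F11 S) (c12 : ContinuousOn F12 S) (c21 : ContinuousOn F21 S)
    (c22 : ContinuousOn F22 S) : ContDiffOn ℝ 2 F S := by
  have d1 : ContDiffOn ℝ 1 F1 S := by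
    rw [show (1 : WithTop ℕ∞) = 0 + 1 by norm_num, contDiffOn_succ_iff_fderiv_of_isOpen hS]
    refine ⟨fun q hq => (h1 q hq).differentiableAt.differentiableWithinAt, by simp, ?_⟩
    rw [contDiffOn_zero]
    refine ContinuousOn.congr (f := fun q => hd (F11 q) (F12 q)) ?_ fun q hq => (h1 q hq).fderiv
    exact continuous_hd.comp_continuousOn (c11.prodMk c12)
  have d2 : ContDiffOn ℝ 1 F2 S := by
    rw [show (1 : WithTop ℕ∞) = 0 + 1 by norm_num, contDiffOn_succ_iff_fderiv_of_isOpen hS]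
    refine ⟨fun q hq => (h2 q hq).differentiableAt.differentiableWithinAt, by simp, ?_⟩
    rw [contDiffOn_zero]
    refine ContinuousOn.congr (f := fun q => hd (F21 q) (F22 q)) ?_ fun q hq => (h2 q hq).fderiv
    exact continuous_hd.comp_continuousOn (c21.prodMk c22)
  rw [show (2 : WithTop ℕ∞) = 1 + 1 by norm_num, contDiffOn_succ_iff_fderiv_of_isOpen hS]
  refine ⟨fun q hq => (h q hq).differentiableAt.differentiableWithinAt, by simp, ?_⟩
  refine ContDiffOn.congr (f := fun q => hd (F1 q) (F2 q)) ?_ fun q hq => (h q hq).fderiv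
  unfold hd
  exact (d1.smul contDiffOn_const).add (d2.smul contDiffOn_const)

/-- the sum of the series -/
noncomputable def ser (a P : ℕ → ℝ → ℝ) (p : ℝ × ℝ) : ℝ := ∑' k, a k p.1 * P k p.2

theorem ser_hasFDerivAt {J I : Set ℝ} (hJ : IsOpen J) (hI : IsOpen I) (cJ : Convex ℝ J) (cI : Convex ℝ I)
    {a a1 P P1 : ℕ → ℝ → ℝ} (ha : ∀ k, ∀ s ∈ J, HasDerivAt (a k) (a1 k s) s)
    (hP : ∀ k, ∀ x ∈ I, HasDerivAt (P k) (P1 k x) x) {b : ℕ → ℝ} (hb : Summable b)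
    (h0 : ∀ k, ∀ s ∈ J, ∀ x ∈ I, |a k s * P k x| ≤ b k)
    (h1 : ∀ k, ∀ s ∈ J, ∀ x ∈ I, |a1 k s * P k x| ≤ b k)
    (h2 : ∀ k, ∀ s ∈ J, ∀ x ∈ I, |a k s * P1 k x| ≤ b k)
    {p : ℝ × ℝ} (hp : p ∈ J ×ˢ I) :
    HasFDerivAt (ser a P) (hd (ser a1 P p) (ser a P1 p)) p := by
  refine tsum_hd (S := J ×ˢ I) (hJ.prod hI) (cJ.prod cI) (f := fun k q => a k q.1 * P k q.2)
    (f1 := fun k q => a1 k q.1 * P k q.2) (f2 := fun k q => a k q.1 * P1 k q.2) (fun k q hq => ?_) hb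
    (fun k q hq => h0 k _ hq.1 _ hq.2) (fun k q hq => h1 k _ hq.1 _ hq.2) (fun k q hq => h2 k _ hq.1 _ hq.2) hp
  have e1 : HasFDerivAt (fun q : ℝ × ℝ => a k q.1) (a1 k q.1 • ContinuousLinearMap.fst ℝ ℝ ℝ) q :=
    (ha k q.1 hq.1).comp_hasFDerivAt q hasFDerivAt_fst
  have e2 : HasFDerivAt (fun q : ℝ × ℝ => P k q.2) (P1 k q.2 • ContinuousLinearMap.snd ℝ ℝ ℝ) q :=
    (hP k q.2 hq.2).comp_hasFDerivAt q hasFDerivAt_snd
  refine (e1.mul e2).congr_fderiv ?_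
  refine ContinuousLinearMap.ext fun v => ?_
  simp [hd]
  ring

theorem ser_continuousOn {S : Set (ℝ × ℝ)} {a P : ℕ → ℝ → ℝ}
    (ha : ∀ k, ContinuousOn (fun q : ℝ × ℝ => a k q.1 * P k q.2) S) {b : ℕ → ℝ} (hb : Summable b)
    (h0 : ∀ k, ∀ q ∈ S, |a k q.1 * P k q.2| ≤ b k) :
    ContinuousOn (ser a P) S :=
  tsum_cont ha hb h0

end Pool.Agent.H36.SC
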